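import Mathlib
import Pool.Agent.Lib.MP_997916_al.ScottGroup
import Pool.Agent.Lib.MP_997916_al.Wreath

/-!
# Core-free integrally coset equivalent subgroups need not be isomorphic

The problem asks whether two core-free subgroups `H₁, H₂` of a finite group `G` with
`ℤ[G/H₁] ≅ ℤ[G/H₂]` as `ℤ[G]`-modules must be isomorphic as abstract groups. The answer is no.

Construction. Start from Scott's pair `(K₁, K₂)` in `PSL(2,29)` (index 203). Let `X` be the set of
cosets of `K₁`, and let `Γ` be the permutational wreath product of `S₃` with `PSL(2,29)` over `X`.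
The preimages `Γ₁, Γ₂` of `K₁, K₂` are integrally coset equivalent in `Γ` and not isomorphic:
`K₁` fixes a point of `X` and `K₂` does not. Finally embed `Γ` into the symmetric group on `Γ` by
the regular representation. Coset equivalence is inherited by any overgroup (induction) and
subgroups of the regularly embedded `Γ` are core-free in the symmetric group.
-/

set_option autoImplicit false

namespace Pool.Agent.Results.MP_997916_al.CoreFreeCounterexample

open Pool.Agent.Lib.MP_997916_al

/-- Two subgroups `H₁, H₂` of `G` are `R`-coset equivalent if the permutation modules `R[G/H₁]` and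
`R[G/H₂]` (free on the left cosets, `G` acting by left multiplication) are isomorphic as modules
over the group ring `R[G]`. -/
def CosetEquivalent (R : Type*) [CommRing R] {G : Type*} [Group G] (H₁ H₂ : Subgroup G) : Prop :=
  Nonempty ((Representation.ofMulAction R G (G ⧸ H₁)).asModule ≃ₗ[MonoidAlgebra R G]
    (Representation.ofMulAction R G (G ⧸ H₂)).asModule)

/-- An equivalence of representations is an isomorphism of modules over the group ring. -/
theorem asModule_nonempty {R G V W : Type*} [CommRing R] [Group G] [AddCommGroup V] [Module R V]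
    [AddCommGroup W] [Module R W] {ρ : Representation R G V} {σ : Representation R G W}
    (e : ρ.Equiv σ) : Nonempty (ρ.asModule ≃ₗ[MonoidAlgebra R G] σ.asModule) := by
  refine ⟨LinearEquiv.ofBijective
    (Representation.IntertwiningMap.equivLinearMapAsModule ρ σ e.toIntertwiningMap) ?_⟩
  exact e.toLinearEquiv.bijective

/-- The first permutation representation of `PSL(2,29)` on 203 points is faithful. -/
theorem φ₁_injective : Function.Injective φ₁ := by
  rw [injective_iff_map_eq_one]
  intro g hg
  have h2 : φ₂ g = 1 := by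
    ext y
    by_contra hne
    have hne' : φ₂ g y ≠ y := fun h => hne (by rw [h]; rfl)
    have e1 : (N * M) y (φ₂ g y) = (N * M) y y := by
      rw [Matrix.mul_apply, Matrix.mul_apply]
      refine Finset.sum_congr rfl fun x _ => ?_
      have h := M_inv g x y
      rw [hg, Equiv.Perm.one_apply] at h
      rw [h]
    rw [NM, Matrix.one_apply_eq, Matrix.one_apply_ne (Ne.symm hne')] at e1
    exact zero_ne_one e1
  apply Subtype.ext
  exact Prod.ext hg h2

/-- **Answer to the question.** There are a finite group `G` and two core-free subgroups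
`H₁, H₂ ≤ G` which are `ℤ`-coset equivalent but not isomorphic. -/
theorem result : ∃ (G : Type) (_ : Group G) (_ : Finite G) (H₁ H₂ : Subgroup G),
    H₁.normalCore = ⊥ ∧ H₂.normalCore = ⊥ ∧ CosetEquivalent ℤ H₁ H₂ ∧
      ¬ Nonempty (H₁ ≃* H₂) := by
  -- the wreath product and its two actions
  let Γ : Type := (Fin 203 → Equiv.Perm (Fin 3)) ⋊[shift φ₁] G0
  let ψ₁ : Γ →* Equiv.Perm (Fin 203) := lift φ₁ φ₁
  let ψ₂ : Γ →* Equiv.Perm (Fin 203) := lift φ₁ φ₂
  have hfin : Finite Γ := Finite.of_equiv _ SemidirectProduct.equivProd.symm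
  have ht₁ : ∀ x, ∃ γ, ψ₁ γ 0 = x := fun x => by
    obtain ⟨g, hg⟩ := trans₁ x
    exact ⟨SemidirectProduct.inr g, hg⟩
  have ht₂ : ∀ x, ∃ γ, ψ₂ γ 0 = x := fun x => by
    obtain ⟨g, hg⟩ := trans₂ x
    exact ⟨SemidirectProduct.inr g, hg⟩
  have hcard : 4 < Nat.card Γ := by
    have h := Nat.card_le_card_of_surjective (fun γ : Γ => ψ₁ γ 0) ht₁
    rw [Nat.card_fin] at h
    omega
  -- the two stabilisers are not isomorphic
  have hP₁ : HasP (stab ψ₁ 0) := hasP_first φ₁ 0 (finRotate 3) (by decide) (by decide)
  have hP₂ : ¬ HasP (stab ψ₂ 0) :=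
    not_hasP_second φ₁ φ₂ 0 φ₁_injective (Equiv.swap 0 1) (Equiv.swap 0 2) (by decide)
      (by decide) (by decide) (by decide) nofix
  -- the regular embedding
  let ρ : Γ →* Equiv.Perm Γ := MulAction.toPermHom Γ Γ
  have hρ : Function.Injective ρ := MulAction.toPerm_injective
  refine ⟨Equiv.Perm Γ, inferInstance, inferInstance, (stab ψ₁ 0).map ρ, (stab ψ₂ 0).map ρ,
    cayley_core hcard _, cayley_core hcard _, ?_, ?_⟩
  · exact asModule_nonempty (cosetEquiv ρ ψ₁ ψ₂ 0 0 ht₁ ht₂ M
      (fun γ x y => M_inv γ.right x y) N (fun γ x y => N_inv γ.right x y) MN NM)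
  · rintro ⟨e⟩
    apply hP₂
    exact ((hP₁.of_mulEquiv ((stab ψ₁ 0).equivMapOfInjective ρ hρ)).of_mulEquiv e).of_mulEquiv
      ((stab ψ₂ 0).equivMapOfInjective ρ hρ).symm

end Pool.Agent.Results.MP_997916_al.CoreFreeCounterexample
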